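import Pool.Agent.Q279.Col.Four

/-!
# Base-4 valuation of coloured 4-ary partition counts under index shifts (MP_c46995_nt, Q1)

`S k m n` (file `Pool.Agent.Q279.Col.Defs`) is the coefficient of `x ^ n` in the power series
`(1 - x)^{-m} ∏_{i ≥ 0} (1 - x^{k^i})^{-m (k - 1)}` over `ℤ` (the infinite product converges
coefficientwise, see `Q279.Col.multipliable_pow`; its inverse is characterised by
`Q279.Col.den_mul_H`).
-/

set_option autoImplicit false

namespace Pool.Agent.Results.MP_c46995_nt.ShiftInvariance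

open Q279.Col

/-- For all `s ≥ 3` and all `m, n ≥ 0`, `φ₄(S_{4,2^s m + 2^{s-1}}(n)) = φ₄(S_{4,2^{s-1}}(n))`, where
`φ₄(N) = emultiplicity 4 N` is the exponent of the largest power of `4` dividing `N` (`⊤` if
`N = 0`). -/
theorem result (s m n : ℕ) (hs : 3 ≤ s) :
    emultiplicity (4 : ℤ) (S 4 (2 ^ s * m + 2 ^ (s - 1)) n) =
      emultiplicity (4 : ℤ) (S 4 (2 ^ (s - 1)) n) := by
  rcases Nat.eq_zero_or_pos n with rfl | hn
  · rw [S_zero (by norm_num), S_zero (by norm_num)]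
  obtain ⟨t, rfl⟩ : ∃ t, s = t + 3 := ⟨s - 3, by omega⟩
  have h1 := emult_S4 t 1 (by norm_num) n hn
  have h2 := emult_S4 t (2 * m + 1) (by omega) n hn
  rw [show 4 * 2 ^ t * 1 = 2 ^ (t + 3 - 1) by rw [Nat.add_sub_assoc (by norm_num)]; ring] at h1
  rw [show 4 * 2 ^ t * (2 * m + 1) = 2 ^ (t + 3) * m + 2 ^ (t + 3 - 1) by
    rw [Nat.add_sub_assoc (by norm_num)]; ring] at h2
  have h3 := h2.trans h1.symm
  rw [emultiplicity_eq_emultiplicity_iff] at h3 ⊢
  intro e
  have h4 : ((4 : ℤ) ^ e) = 2 ^ (2 * e) := by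
    rw [pow_mul]; norm_num
  rw [h4]
  exact h3 (2 * e)

end Pool.Agent.Results.MP_c46995_nt.ShiftInvariance
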